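import Mathlib

set_option autoImplicit false

open Cardinal Set

namespace Pool.Agent.H13.Iso

/-- sets of cardinality less than `aleph_omega` -/
def Small {α : Type} (E : Set α) : Prop := ∃ n : ℕ, #E ≤ ℵ_ (n : Ordinal)

lemma al_mono {n m : ℕ} (h : n ≤ m) : ℵ_ (n : Ordinal) ≤ ℵ_ (m : Ordinal) :=
  aleph_le_aleph.2 (by exact_mod_cast h)

lemma al_lt (n : ℕ) : ℵ_ (n : Ordinal) < ℵ_ ((n + 1 : ℕ) : Ordinal) :=
  aleph_lt_aleph.2 (by exact_mod_cast Nat.lt_succ_self n)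

lemma small_mono {α : Type} {E F : Set α} (h : E ⊆ F) (hF : Small F) : Small E := by
  obtain ⟨n, hn⟩ := hF
  exact ⟨n, (mk_le_mk_of_subset h).trans hn⟩

lemma union_le {α : Type} {E F : Set α} {n : ℕ} (hE : #E ≤ ℵ_ (n : Ordinal))
    (hF : #F ≤ ℵ_ (n : Ordinal)) : #(E ∪ F : Set α) ≤ ℵ_ (n : Ordinal) := by
  calc #(E ∪ F : Set α) ≤ #E + #F := mk_union_le E F
    _ ≤ ℵ_ (n : Ordinal) + ℵ_ (n : Ordinal) := add_le_add hE hF
    _ = ℵ_ (n : Ordinal) := add_eq_self (aleph0_le_aleph _)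

lemma small_union {α : Type} {E F : Set α} (hE : Small E) (hF : Small F) : Small (E ∪ F) := by
  obtain ⟨n, hn⟩ := hE
  obtain ⟨m, hm⟩ := hF
  exact ⟨max n m, union_le (hn.trans (al_mono (le_max_left _ _)))
    (hm.trans (al_mono (le_max_right _ _)))⟩

lemma iUnion_le {α ι : Type} {s : ι → Set α} {n : ℕ} (hι : #ι ≤ ℵ_ (n : Ordinal))
    (hs : ∀ i, #(s i) ≤ ℵ_ (n : Ordinal)) : #(⋃ i, s i : Set α) ≤ ℵ_ (n : Ordinal) := by
  calc #(⋃ i, s i : Set α) ≤ #ι * ⨆ i, #(s i) := mk_iUnion_le s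
    _ ≤ ℵ_ (n : Ordinal) * ℵ_ (n : Ordinal) := mul_le_mul' hι (ciSup_le' hs)
    _ = ℵ_ (n : Ordinal) := mul_eq_self (aleph0_le_aleph _)

lemma small_iUnion {α ι : Type} {s : ι → Set α} (n m : ℕ) (hι : #ι ≤ ℵ_ (n : Ordinal))
    (hs : ∀ i, #(s i) ≤ ℵ_ (m : Ordinal)) : Small (⋃ i, s i : Set α) :=
  ⟨max n m, iUnion_le (hι.trans (al_mono (le_max_left _ _)))
    (fun i => (hs i).trans (al_mono (le_max_right _ _)))⟩

lemma small_countable {α : Type} {E : Set α} (h : E.Countable) : Small E :=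
  ⟨0, by simpa using (le_aleph0_iff_set_countable.2 h)⟩

/-- pigeonhole -/
lemma pigeon {α : Type} {n : ℕ} {P : Set α} (hP : ¬ #P ≤ ℵ_ (n : Ordinal)) (Q : ℕ → Set α)
    (h : P ⊆ ⋃ m, Q m) : ∃ m, ¬ #(P ∩ Q m : Set α) ≤ ℵ_ (n : Ordinal) := by
  by_contra hcon
  push Not at hcon
  apply hP
  have h1 : P = ⋃ m, P ∩ Q m := by
    rw [← inter_iUnion, inter_eq_left.2 h]
  rw [h1]
  refine iUnion_le ?_ hcon
  rw [mk_nat]
  exact aleph0_le_aleph _

/-- the space: a set of cardinality `aleph_omega` together with one point `inf` -/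
inductive XX : Type
  | inf : XX
  | pt (n : ℕ) (a : (ℵ_ (n : Ordinal)).out) : XX

lemma not_small : ¬ Small {x : XX | x ≠ XX.inf} := by
  rintro ⟨n, hn⟩
  have h1 : #((ℵ_ ((n + 1 : ℕ) : Ordinal)).out) ≤ #{x : XX | x ≠ XX.inf} := by
    refine mk_le_of_injective (f := fun a => ⟨XX.pt (n + 1) a, by
      intro h; cases h⟩) ?_
    intro a b hab
    simpa using hab
  rw [mk_out] at h1
  exact absurd (h1.trans hn) (not_le.2 (al_lt n))

/-- an increasing sequence of sets covering the space -/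
def ZZ (n : ℕ) : Set XX := {x : XX | ∀ k a, x = XX.pt k a → k ≤ n}

lemma ZZ_card (n : ℕ) : #(ZZ n) ≤ ℵ_ (n : Ordinal) := by
  have h1 : ZZ n ⊆ {XX.inf} ∪
      ⋃ k : Fin (n + 1), range (fun a : (ℵ_ ((k : ℕ) : Ordinal)).out => XX.pt k a) := by
    intro x hx
    rcases x with _ | ⟨k, a⟩
    · exact Or.inl rfl
    · have h2 := hx k a rfl
      exact Or.inr (mem_iUnion.2 ⟨⟨k, Nat.lt_succ_of_le h2⟩, ⟨a, rfl⟩⟩)
  refine (mk_le_mk_of_subset h1).trans (union_le ?_ (iUnion_le ?_ ?_))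
  · rw [mk_singleton]
    exact one_le_aleph0.trans (aleph0_le_aleph _)
  · exact (mk_le_aleph0 (α := Fin (n + 1))).trans (aleph0_le_aleph _)
  · intro k
    refine mk_range_le.trans ?_
    rw [mk_out]
    exact al_mono (Nat.le_of_lt_succ k.2)

lemma ZZ_cover (x : XX) : ∃ k, ∀ n, k ≤ n → x ∈ ZZ n := by
  rcases x with _ | ⟨k, a⟩
  · refine ⟨0, fun n _ => ?_⟩
    intro k a hd
    cases hd
  · refine ⟨k, fun n hn => ?_⟩
    intro k a hd
    cases hd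
    exact hn

/-- well-ordering with small initial segments -/
lemma exists_order {α : Type} {n : ℕ} (Y : Set α) (hY : #Y ≤ ℵ_ ((n + 1 : ℕ) : Ordinal)) :
    ∃ r : Y → Y → Prop, IsWellOrder Y r ∧ ∀ y, #{z : Y | r z y} ≤ ℵ_ (n : Ordinal) := by
  obtain ⟨r, wo, hr⟩ := exists_ord_eq Y
  refine ⟨r, wo, fun y => ?_⟩
  have h1 := card_typein_lt (r := r) y hr
  have h2 : #{z : Y | r z y} < ℵ_ ((n + 1 : ℕ) : Ordinal) := lt_of_lt_of_le h1 hY
  have h3 : ℵ_ ((n + 1 : ℕ) : Ordinal) = Order.succ (ℵ_ (n : Ordinal)) := by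
    rw [Nat.cast_succ, succ_aleph]
  rw [h3, Order.lt_succ_iff] at h2
  exact h2

end Pool.Agent.H13.Iso
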