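import Pool.Agent.H13.Iso.Card
import Pool.Agent.Results.MP_ba0d78_gt.Defs

set_option autoImplicit false

open Cardinal Set Filter Topology

namespace Pool.Agent.H13.Iso

open Pool.Agent.Results.MP_ba0d78_gt

instance : TopologicalSpace XX where
  IsOpen U := XX.inf ∈ U → Small Uᶜ
  isOpen_univ := by
    intro _
    rw [compl_univ]
    exact small_countable countable_empty
  isOpen_inter := by
    intro U V hU hV h
    rw [compl_inter]
    exact small_union (hU h.1) (hV h.2)
  isOpen_sUnion := by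
    intro S hS h
    obtain ⟨U, hU, hx⟩ := h
    exact small_mono (compl_subset_compl.2 (subset_sUnion_of_mem hU)) (hS U hU hx)

lemma isOpen_iff (U : Set XX) : IsOpen U ↔ (XX.inf ∈ U → Small Uᶜ) := Iff.rfl

instance : T1Space XX := by
  refine ⟨fun x => ?_⟩
  rw [← isOpen_compl_iff, isOpen_iff, compl_compl]
  intro _
  exact small_countable (countable_singleton x)

instance : NormalSpace XX := by
  refine ⟨fun A B hA hB hAB => ?_⟩
  by_cases h : XX.inf ∈ A
  · have hB' : XX.inf ∉ B := fun h2 => (Set.disjoint_left.1 hAB h) h2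
    refine ⟨Bᶜ, B, hB.isOpen_compl, ?_, ?_, subset_rfl, disjoint_compl_left⟩
    · rw [isOpen_iff]
      exact fun h2 => absurd h2 hB'
    · exact fun x hx hxB => Set.disjoint_left.1 hAB hx hxB
  · refine ⟨A, Aᶜ, ?_, hA.isOpen_compl, subset_rfl, ?_, disjoint_compl_right⟩
    · rw [isOpen_iff]
      exact fun h2 => absurd h2 h
    · exact fun x hx hxA => Set.disjoint_left.1 hAB hxA hx

instance : T4Space XX := T4Space.mk

/-- continuity criterion -/
lemma cont_iff (f : XX → ℝ) : Continuous f ↔
    ∀ j : ℕ, Small {x : XX | 1 / ((j : ℝ) + 1) ≤ |f x - f XX.inf|} := by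
  constructor
  · intro hf j
    have h1 : IsOpen {x : XX | |f x - f XX.inf| < 1 / ((j : ℝ) + 1)} :=
      isOpen_lt ((hf.sub continuous_const).abs) continuous_const
    rw [isOpen_iff] at h1
    have h2 := h1 (by
      show |f XX.inf - f XX.inf| < _
      rw [sub_self, abs_zero]
      positivity)
    refine small_mono ?_ h2
    intro x hx hx2
    exact (not_lt.2 (show 1 / ((j : ℝ) + 1) ≤ |f x - f XX.inf| from hx)) hx2
  · intro h
    rw [continuous_def]
    intro V hV
    rw [isOpen_iff]
    intro hx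
    obtain ⟨ε, hε, hb⟩ := Metric.isOpen_iff.1 hV _ hx
    obtain ⟨j, hj⟩ := exists_nat_one_div_lt hε
    refine small_mono ?_ (h j)
    intro x hxV
    show 1 / ((j : ℝ) + 1) ≤ |f x - f XX.inf|
    by_contra hcon
    push Not at hcon
    apply hxV
    apply hb
    rw [Metric.mem_ball, Real.dist_eq]
    exact hcon.trans hj

/-- cluster points and pointwise limits -/
lemma cluster_eq {X : Type} [TopologicalSpace X] {s : ℕ → Cp X} {f : Cp X}
    (h : MapClusterPt f atTop s) (x : X) (c : ℝ) (hc : Tendsto (fun n => (s n).1 x) atTop (𝓝 c)) :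
    f.1 x = c := by
  have h1 : Continuous (fun g : Cp X => g.1 x) :=
    (continuous_apply x).comp continuous_subtype_val
  have h2 : MapClusterPt (f.1 x) atTop (fun n => (s n).1 x) :=
    h.continuousAt_comp h1.continuousAt
  by_contra hne
  obtain ⟨U, V, hU, hV, hxU, hcV, hd⟩ := t2_separation hne
  have h3 := h2.frequently (hU.mem_nhds hxU)
  have h4 := hc.eventually (hV.mem_nhds hcV)
  obtain ⟨n, hn1, hn2⟩ := (h3.and_eventually h4).exists
  exact Set.disjoint_left.1 hd hn1 hn2

section
variable {F : Set (Cp XX)} (hF : IsClosed F) (hc : IsCountablyCompact F)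

include hc in
lemma bounded (x : XX) : ∃ M : ℝ, ∀ f ∈ F, |f.1 x| ≤ M := by
  have h1 : Continuous (fun g : Cp XX => |g.1 x|) :=
    ((continuous_apply x).comp continuous_subtype_val).abs
  obtain ⟨t, ht⟩ := hc.elim_finite_subcover (U := fun n : ℕ => {g : Cp XX | |g.1 x| < n})
    (fun n => isOpen_lt h1 continuous_const) (fun f _ => by
      obtain ⟨n, hn⟩ := exists_nat_gt |f.1 x|
      exact mem_iUnion.2 ⟨n, hn⟩)
  refine ⟨(t.sup id : ℕ), fun f hf => ?_⟩
  obtain ⟨n, hn, hfn⟩ := mem_iUnion₂.1 (ht hf)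
  have h2 : n ≤ t.sup id := Finset.le_sup (f := id) hn
  have h3 : (n : ℝ) ≤ (t.sup id : ℕ) := by exact_mod_cast h2
  exact (le_of_lt hfn).trans h3

include hc in
/-- agreement on countable sets -/
lemma agree0 (g : XX → ℝ) (hg : g ∈ closure (Subtype.val '' F)) (Y : Set XX)
    (hY : #Y ≤ ℵ_ ((0 : ℕ) : Ordinal)) : ∃ f ∈ F, ∀ y ∈ Y, f.1 y = g y := by
  have hYc : Y.Countable := by
    rw [← le_aleph0_iff_set_countable]
    simpa using hY
  rcases Y.eq_empty_or_nonempty with hYe | hYn
  · obtain ⟨_, ⟨f, hf, rfl⟩⟩ := closure_nonempty_iff.1 ⟨g, hg⟩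
    exact ⟨f, hf, fun y hy => by rw [hYe] at hy; exact absurd hy (notMem_empty y)⟩
  · obtain ⟨e, he⟩ := hYc.exists_eq_range hYn
    have h1 : ∀ i : ℕ, ∃ f ∈ F, ∀ j ≤ i, |f.1 (e j) - g (e j)| < 1 / ((i : ℝ) + 1) := by
      intro i
      have hO : IsOpen (⋂ j ∈ Finset.range (i + 1), {φ : XX → ℝ | |φ (e j) - g (e j)| <
          1 / ((i : ℝ) + 1)}) := by
        refine isOpen_biInter_finset (fun j _ => ?_)
        exact isOpen_lt (((continuous_apply (e j)).sub continuous_const).abs) continuous_const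
      obtain ⟨φ, hφ1, ⟨f, hf, rfl⟩⟩ := mem_closure_iff.1 hg _ hO (by
        simp only [mem_iInter, mem_ofPred_eq, sub_self, abs_zero]
        intro j _
        positivity)
      refine ⟨f, hf, fun j hj => ?_⟩
      exact mem_iInter₂.1 hφ1 j (Finset.mem_range.2 (Nat.lt_succ_of_le hj))
    choose s hs hs2 using h1
    obtain ⟨f, hf, hcl⟩ := hc.seq_clusterPt s (Eventually.of_forall hs)
    refine ⟨f, hf, fun y hy => ?_⟩
    rw [he] at hy
    obtain ⟨j, rfl⟩ := hy
    refine cluster_eq hcl (e j) (g (e j)) ?_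
    rw [tendsto_iff_norm_sub_tendsto_zero]
    refine squeeze_zero' (Eventually.of_forall fun n => norm_nonneg _) ?_
      tendsto_one_div_add_atTop_nhds_zero_nat
    filter_upwards [eventually_ge_atTop j] with n hn
    exact (hs2 n j hn).le

include hF hc in
lemma closure_agree (n : ℕ) (g : XX → ℝ) (hg : g ∈ closure (Subtype.val '' F)) (Y : Set XX)
    (hY : #Y ≤ ℵ_ (n : Ordinal)) : ∃ f ∈ F, ∀ y ∈ Y, f.1 y = g y := by
  induction n generalizing Y with
  | zero => exact agree0 hc g hg Y hY
  | succ n ih =>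
    by_cases hYn : #Y ≤ ℵ_ (n : Ordinal)
    · exact ih Y hYn
    obtain ⟨r, wo, hr⟩ := exists_order Y hY
    -- approximations
    have h1 : ∀ y : Y, ∃ f ∈ F, ∀ z : Y, (r z y ∨ z = y) → f.1 z = g z := by
      intro y
      obtain ⟨f, hf, hfg⟩ := ih ((fun z : Y => (z : XX)) '' ({z : Y | r z y} ∪ {y})) (by
        refine mk_image_le.trans (union_le (hr y) ?_)
        rw [mk_singleton]
        exact one_le_aleph0.trans (aleph0_le_aleph _))
      refine ⟨f, hf, fun z hz => hfg _ ⟨z, ?_, rfl⟩⟩
      rcases hz with hz | hz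
      · exact Or.inl hz
      · exact Or.inr hz
    choose φ hφF hφ using h1
    -- the sets Λ j m
    set Lam : ℕ → ℕ → Set Y := fun j m =>
      {y : Y | #{x : XX | 1 / ((j : ℝ) + 1) ≤ |(φ y).1 x - (φ y).1 XX.inf|} ≤ ℵ_ (m : Ordinal)}
      with hLam
    have hcov : ∀ (j : ℕ) (P : Set Y), P ⊆ ⋃ m, Lam j m := by
      intro j P y _
      obtain ⟨m, hm⟩ := (cont_iff _).1 (φ y).2 j
      exact mem_iUnion.2 ⟨m, hm⟩
    have hstep : ∀ (j : ℕ) (P : {P : Set Y // ¬ #P ≤ ℵ_ (n : Ordinal)}), ∃ m : ℕ,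
        ¬ #(P.1 ∩ Lam j m : Set Y) ≤ ℵ_ (n : Ordinal) := fun j P => pigeon P.2 _ (hcov j P.1)
    choose mm hmm using hstep
    let PP : ℕ → {P : Set Y // ¬ #P ≤ ℵ_ (n : Ordinal)} := fun k =>
      Nat.rec ⟨Set.univ, by rwa [mk_univ]⟩ (fun j P => ⟨P.1 ∩ Lam j (mm j P), hmm j P⟩) k
    have hPs : ∀ j, (PP (j + 1)).1 = (PP j).1 ∩ Lam j (mm j (PP j)) := fun j => rfl
    have hanti : Antitone (fun j => (PP j).1) :=
      antitone_nat_of_succ_le (fun j => by rw [hPs]; exact inter_subset_left)
    -- the filter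
    let L : Filter Y :=
      { sets := {S | ∃ j, #((PP j).1 \ S : Set Y) ≤ ℵ_ (n : Ordinal)}
        univ_sets := ⟨0, by
          rw [sdiff_univ]
          simp⟩
        sets_of_superset := by
          rintro S T ⟨j, hj⟩ hST
          exact ⟨j, (mk_le_mk_of_subset (sdiff_subset_sdiff_right hST)).trans hj⟩
        inter_sets := by
          rintro S T ⟨j, hj⟩ ⟨k, hk⟩
          refine ⟨max j k, ?_⟩
          refine (mk_le_mk_of_subset ?_).trans (union_le hj hk)
          intro y hy
          rw [Set.mem_sdiff, mem_inter_iff, not_and_or] at hy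
          rcases hy.2 with h | h
          · exact Or.inl ⟨hanti (le_max_left j k) hy.1, h⟩
          · exact Or.inr ⟨hanti (le_max_right j k) hy.1, h⟩ }
    have hL : L.NeBot := by
      refine ⟨fun hbot => ?_⟩
      have h2 : (∅ : Set Y) ∈ L := by rw [hbot]; trivial
      obtain ⟨j, hj⟩ := h2
      rw [sdiff_empty] at hj
      exact (PP j).2 hj
    set U := Ultrafilter.of L with hU
    have hUL : (U : Filter Y) ≤ L := Ultrafilter.of_le L
    have hPU : ∀ j, (PP j).1 ∈ U := fun j => hUL ⟨j, by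
      rw [Set.sdiff_self]
      simp⟩
    have hyU : ∀ y : Y, {z : Y | r y z ∨ y = z} ∈ U := by
      intro y
      refine hUL ⟨0, ?_⟩
      refine (mk_le_mk_of_subset ?_).trans (hr y)
      intro z hz
      have h3 := hz.2
      rw [mem_ofPred_eq, not_or] at h3
      rcases trichotomous_of r y z with h | h | h
      · exact absurd h h3.1
      · exact absurd h h3.2
      · exact h
    -- limit
    have hcomp : IsCompact (closure (Subtype.val '' F : Set (XX → ℝ))) := by
      choose M hM using bounded hc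
      have h4 : IsCompact (Set.pi Set.univ (fun x : XX => Icc (-M x) (M x))) :=
        isCompact_univ_pi (fun x => isCompact_Icc)
      refine h4.of_isClosed_subset isClosed_closure (closure_minimal ?_ h4.isClosed)
      rintro _ ⟨f, hf, rfl⟩ x _
      exact abs_le.1 (hM x f hf)
    obtain ⟨h, hh, hlim⟩ := hcomp.ultrafilter_le_nhds (U.map (fun y => (φ y).1)) (by
      rw [le_principal_iff, Ultrafilter.coe_map, Filter.mem_map]
      exact Filter.univ_mem' (fun y => subset_closure ⟨φ y, hφF y, rfl⟩))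
    have hpt : ∀ x : XX, Tendsto (fun y => (φ y).1 x) U (𝓝 (h x)) := by
      intro x
      have h5 : Tendsto (fun y => (φ y).1) (U : Filter Y) (𝓝 h) := hlim
      exact ((continuous_apply x).tendsto h).comp h5
    have hcont : Continuous h := by
      rw [cont_iff]
      intro j
      set J := 2 * j + 1 with hJ
      have hsub : {x : XX | 1 / ((j : ℝ) + 1) ≤ |h x - h XX.inf|} ⊆
          ⋃ y : (PP (J + 1)).1,
            {x : XX | 1 / ((J : ℝ) + 1) ≤ |(φ y.1).1 x - (φ y.1).1 XX.inf|} := by
        intro x hx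
        have h6 : Tendsto (fun y => |(φ y).1 x - (φ y).1 XX.inf|) U (𝓝 |h x - h XX.inf|) :=
          ((hpt x).sub (hpt XX.inf)).abs
        have h7 : 1 / ((J : ℝ) + 1) < |h x - h XX.inf| := by
          refine lt_of_lt_of_le ?_ hx
          apply one_div_lt_one_div_of_lt (by positivity)
          rw [hJ]
          push_cast
          have : (0 : ℝ) ≤ j := Nat.cast_nonneg j
          linarith
        have h8 := h6.eventually (lt_mem_nhds h7)
        have h9 : ∀ᶠ y in (U : Filter Y), y ∈ (PP (J + 1)).1 := hPU (J + 1)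
        obtain ⟨y, hy1, hy2⟩ := (h8.and h9).exists
        exact mem_iUnion.2 ⟨⟨y, hy2⟩, hy1.le⟩
      refine small_mono hsub (small_iUnion (n + 1) (mm J (PP J)) ?_ ?_)
      · exact (mk_set_le _).trans hY
      · intro y
        have h10 : y.1 ∈ (PP J).1 ∩ Lam J (mm J (PP J)) := y.2
        exact h10.2
    have hmem : (⟨h, hcont⟩ : Cp XX) ∈ F := by
      rw [← hF.closure_eq, closure_subtype]
      exact hh
    refine ⟨⟨h, hcont⟩, hmem, fun y hy => ?_⟩
    have h11 : ∀ᶠ z in (U : Filter Y), (φ z).1 y = g y := by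
      filter_upwards [hyU ⟨y, hy⟩] with z hz
      exact hφ z ⟨y, hy⟩ hz
    exact tendsto_nhds_unique (hpt y) (tendsto_const_nhds.congr' (h11.mono (fun z hz => hz.symm)))

include hF hc in
lemma isCompact_F : IsCompact F := by
  rw [Subtype.isCompact_iff]
  have hcl : closure (Subtype.val '' F : Set (XX → ℝ)) ⊆ Subtype.val '' F := by
    intro g hg
    have h1 : ∀ n : ℕ, ∃ f ∈ F, ∀ y ∈ ZZ n, f.1 y = g y := fun n =>
      closure_agree hF hc n g hg (ZZ n) (ZZ_card n)
    choose s hs hs2 using h1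
    obtain ⟨f, hf, hcl⟩ := hc.seq_clusterPt s (Eventually.of_forall hs)
    refine ⟨f, hf, ?_⟩
    funext x
    refine cluster_eq hcl x (g x) ?_
    obtain ⟨k, hk⟩ := ZZ_cover x
    refine tendsto_const_nhds.congr' ?_
    filter_upwards [eventually_ge_atTop k] with n hn
    exact (hs2 n x (hk n hn)).symm
  choose M hM using bounded hc
  have h4 : IsCompact (Set.pi Set.univ (fun x : XX => Icc (-M x) (M x))) :=
    isCompact_univ_pi (fun x => isCompact_Icc)
  refine h4.of_isClosed_subset (isClosed_of_closure_subset hcl) ?_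
  rintro _ ⟨f, hf, rfl⟩ x _
  exact abs_le.1 (hM x f hf)

end

theorem iso : IsIsocompact (Cp XX) := fun _ hF hc => isCompact_F hF hc

/-- characteristic functions of countable sets -/
def AA : Set (Cp XX) := {f | (∀ x, f.1 x = 0 ∨ f.1 x = 1) ∧ f.1 XX.inf = 0 ∧
  {x | f.1 x ≠ 0}.Countable}

lemma cont_char (f : XX → ℝ) (h0 : f XX.inf = 0) (hc : {x | f x ≠ 0}.Countable) :
    Continuous f := by
  rw [cont_iff]
  intro j
  refine small_countable (hc.mono ?_)
  intro x hx hx0
  have h1 : (1 : ℝ) / ((j : ℝ) + 1) ≤ |f x - f XX.inf| := hx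
  rw [hx0, h0, sub_self, abs_zero] at h1
  have : (0 : ℝ) < 1 / ((j : ℝ) + 1) := by positivity
  linarith

lemma AA_cc : CountablyCompactIn AA := by
  intro B hB hinf
  set b := hinf.natEmbedding B with hb
  set U : Ultrafilter ℕ := hyperfilter ℕ with hU
  have hcomp : IsCompact (Set.pi Set.univ (fun _ : XX => ({0, 1} : Set ℝ))) :=
    isCompact_univ_pi (fun x => (Set.toFinite _).isCompact)
  obtain ⟨h, hh, hlim⟩ := hcomp.ultrafilter_le_nhds (U.map (fun n => (b n).1.1)) (by
    rw [le_principal_iff, Ultrafilter.coe_map, Filter.mem_map]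
    refine Filter.univ_mem' (fun n x _ => ?_)
    exact (hB (b n).2).1 x)
  have hpt : ∀ x : XX, Tendsto (fun n => (b n).1.1 x) U (𝓝 (h x)) := by
    intro x
    have h5 : Tendsto (fun n => (b n).1.1) (U : Filter ℕ) (𝓝 h) := hlim
    exact ((continuous_apply x).tendsto h).comp h5
  have h0 : h XX.inf = 0 := by
    refine tendsto_nhds_unique (hpt XX.inf) ?_
    refine tendsto_const_nhds.congr (fun n => ?_)
    exact (hB (b n).2).2.1.symm
  have hcount : {x | h x ≠ 0}.Countable := by
    refine (countable_iUnion (fun n => (hB (b n).2).2.2)).mono ?_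
    intro x hx
    by_contra hcon
    simp only [mem_iUnion, mem_ofPred_eq, not_exists, not_not] at hcon
    apply hx
    refine tendsto_nhds_unique (hpt x) ?_
    exact tendsto_const_nhds.congr (fun n => (hcon n).symm)
  refine ⟨⟨h, cont_char h h0 hcount⟩, ?_⟩
  rw [accPt_iff_frequently]
  intro hev
  have hlim2 : Tendsto (fun n => (b n).1) (U : Filter ℕ) (𝓝 ⟨h, cont_char h h0 hcount⟩) := by
    rw [tendsto_subtype_rng]
    exact hlim
  have h6 := hlim2.eventually hev
  have h7 : ∀ᶠ n in (U : Filter ℕ), (b n).1 ≠ ⟨h, cont_char h h0 hcount⟩ := by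
    refine compl_mem_hyperfilter_of_finite (Set.Subsingleton.finite ?_)
    intro n hn m hm
    have hn' : (b n).1 = ⟨h, cont_char h h0 hcount⟩ := hn
    have hm' : (b m).1 = ⟨h, cont_char h h0 hcount⟩ := hm
    exact b.injective (Subtype.ext (hn'.trans hm'.symm))
  obtain ⟨n, hn1, hn2⟩ := (h6.and h7).exists
  exact hn1 ⟨hn2, (b n).2⟩

theorem not_g : ¬ IsGSpace (Cp XX) := by
  classical
  intro hg
  have h1 := hg AA AA_cc
  rw [Subtype.isCompact_iff] at h1
  have h2 := h1.isClosed
  set e : XX → ℝ := fun x => if x = XX.inf then 0 else 1 with he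
  have h3 : e ∈ closure (Subtype.val '' (closure AA) : Set (XX → ℝ)) := by
    have hs : ∀ s : Finset XX, Continuous (fun x : XX => if x ∈ s then e x else 0) := by
      intro s
      refine cont_char _ ?_ ?_
      · simp [he]
      · refine (s.finite_toSet.countable).mono ?_
        intro x hx
        by_contra hcon
        exact hx (if_neg hcon)
    have hlim : Tendsto (fun (s : Finset XX) (x : XX) => if x ∈ s then e x else 0) atTop
        (𝓝 e) := by
      rw [tendsto_pi_nhds]
      intro x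
      refine tendsto_const_nhds.congr' ?_
      filter_upwards [eventually_ge_atTop {x}] with s hs
      rw [if_pos (hs (Finset.mem_singleton_self x))]
    refine mem_closure_of_tendsto hlim (Eventually.of_forall (fun s => ?_))
    refine ⟨⟨_, hs s⟩, subset_closure ⟨?_, ?_, ?_⟩, rfl⟩
    · intro x
      simp only [he]
      split_ifs <;> simp
    · simp [he]
    · refine (s.finite_toSet.countable).mono ?_
      intro x hx
      by_contra hcon
      exact hx (if_neg hcon)
  rw [h2.closure_eq] at h3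
  obtain ⟨f, -, hf⟩ := h3
  have h4 := (cont_iff e).1 (hf ▸ f.2) 0
  apply not_small
  refine small_mono ?_ h4
  intro x hx
  have hx' : x ≠ XX.inf := hx
  show 1 / (((0 : ℕ) : ℝ) + 1) ≤ |e x - e XX.inf|
  simp [he, hx']

end Pool.Agent.H13.Iso
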